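import Pool.Agent.Helper90.SO.PotentialLt
import Pool.Agent.Helper91.SO.Assign

set_option autoImplicit false

/-!
# SO-4: chambers

Choose an assignment `φ` with the prescribed multiplicities of minimal cost; a negative or zero cycle
in the exchange graph would give another admissible assignment of smaller or equal cost. The
potentials of SO-2 are the wanted constants.
-/

namespace Pool.Agent.Helper28.SO

private theorem sum_change {ι κ M : Type*} [DecidableEq ι] [AddCommGroup M] (J : Finset ι)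
    {m : ℕ} (j : Fin (m + 1) → ι) (hj : ∀ t, j t ∈ J) (hinj : Function.Injective j)
    (φ ψ : ι → κ) (c : Fin (m + 1) → κ) (h1 : ∀ t, ψ (j t) = c t)
    (h2 : ∀ i, (∀ t, j t ≠ i) → ψ i = φ i) (G : ι → κ → M) :
    ∑ i ∈ J, G i (ψ i) - ∑ i ∈ J, G i (φ i) = ∑ t, (G (j t) (c t) - G (j t) (φ (j t))) := by
  rw [← Finset.sum_sub_distrib]
  have h3 : ∑ i ∈ Finset.univ.image j, (G i (ψ i) - G i (φ i)) =
      ∑ i ∈ J, (G i (ψ i) - G i (φ i)) := by
    refine Finset.sum_subset (fun i hi => ?_) (fun i _ hi => ?_)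
    · obtain ⟨t, -, rfl⟩ := Finset.mem_image.mp hi
      exact hj t
    · rw [h2 i (fun t ht => hi (Finset.mem_image.mpr ⟨t, Finset.mem_univ _, ht⟩)), sub_self]
  rw [← h3, Finset.sum_image (fun s _ t _ hst => hinj hst)]
  exact Finset.sum_congr rfl fun t _ => by rw [h1]

/-- SO-4. -/
theorem chamber {ι κ : Type*} [DecidableEq ι] [Fintype κ] [DecidableEq κ] [Nonempty κ]
    (J : Finset ι) (C : Finset κ) (I : ι → Finset κ) (hI : ∀ j ∈ J, I j ⊆ C) (a : κ → ℕ)
    (htot : ∑ c ∈ C, a c = J.card)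
    (hall : ∀ D ⊆ C, (J.filter (fun j => I j ⊆ D)).card ≤ ∑ c ∈ D, a c)
    (x : ι → κ → ℝ)
    (hgen : ∀ φ ψ : ι → κ, (∀ j ∈ J, φ j ∈ I j) → (∀ j ∈ J, ψ j ∈ I j) →
      ∑ j ∈ J, x j (φ j) = ∑ j ∈ J, x j (ψ j) → ∀ j ∈ J, φ j = ψ j) :
    ∃ (α : κ → ℝ) (φ : ι → κ),
      (∀ j ∈ J, φ j ∈ I j ∧ ∀ c ∈ I j, c ≠ φ j → x j (φ j) - α (φ j) < x j c - α c) ∧
      ∀ c ∈ C, (J.filter (fun j => φ j = c)).card = a c := by
  classical
  -- an assignment of minimal cost
  set T : Set ℝ := {r | ∃ φ : ι → κ, ((∀ j ∈ J, φ j ∈ I j) ∧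
    ∀ c ∈ C, (J.filter (fun j => φ j = c)).card = a c) ∧ ∑ j ∈ J, x j (φ j) = r} with hT
  have hfin : T.Finite := by
    refine Set.Finite.subset (Set.finite_range
      (fun ψ : J → κ => ∑ j : J, x (j : ι) (ψ j))) ?_
    rintro r ⟨φ, -, rfl⟩
    exact ⟨fun j => φ j, Finset.sum_coe_sort J (fun j => x j (φ j))⟩
  have hne : T.Nonempty := by
    obtain ⟨φ, h1, h2⟩ := exists_assignment J C I hI a htot hall
    exact ⟨_, φ, ⟨h1, h2⟩, rfl⟩
  obtain ⟨r, ⟨φ, ⟨hφI, hφa⟩, rfl⟩, hmin⟩ := Set.exists_min_image T id hfin hne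
  -- the exchange graph
  let E : Finset (κ × κ × ℝ) := J.biUnion fun j =>
    ((I j).erase (φ j)).image fun c => (φ j, c, x j c - x j (φ j))
  have hE : ∀ e, e ∈ E ↔ ∃ j ∈ J, ∃ c ∈ I j, c ≠ φ j ∧ (φ j, c, x j c - x j (φ j)) = e := by
    intro e
    simp only [E, Finset.mem_biUnion, Finset.mem_image, Finset.mem_erase]
    constructor
    · rintro ⟨j, hj, c, ⟨hc1, hc2⟩, he⟩
      exact ⟨j, hj, c, hc2, hc1, he⟩
    · rintro ⟨j, hj, c, hc2, hc1, he⟩
      exact ⟨j, hj, c, ⟨hc1, hc2⟩, he⟩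
  obtain ⟨α, hα⟩ := potential_lt E (by
    intro m p hp hlink hinj
    choose j hj c hc hne' hpe using fun t => (hE (p t)).mp (hp t)
    have e1 : ∀ t, (p t).1 = φ (j t) := fun t => by rw [← hpe t]
    have e2 : ∀ t, (p t).2.1 = c t := fun t => by rw [← hpe t]
    have e3 : ∀ t, (p t).2.2 = x (j t) (c t) - x (j t) (φ (j t)) := fun t => by rw [← hpe t]
    have hjinj : Function.Injective j := by
      intro s t hst
      apply hinj
      show (p s).1 = (p t).1
      rw [e1, e1, hst]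
    have hc' : ∀ t, c t = φ (j (t + 1)) := fun t => by rw [← e2, hlink, e1]
    let ψ : ι → κ := fun i => if h : ∃ t, j t = i then c h.choose else φ i
    have h1 : ∀ t, ψ (j t) = c t := by
      intro t
      have h : ∃ s, j s = j t := ⟨t, rfl⟩
      show (if h : ∃ s, j s = j t then c h.choose else φ (j t)) = c t
      rw [dif_pos h, hjinj h.choose_spec]
    have h2 : ∀ i, (∀ t, j t ≠ i) → ψ i = φ i := by
      intro i hi
      show (if h : ∃ s, j s = i then c h.choose else φ i) = φ i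
      rw [dif_neg]
      rintro ⟨t, ht⟩
      exact hi t ht
    have hψI : ∀ i ∈ J, ψ i ∈ I i := by
      intro i hi
      by_cases h : ∃ t, j t = i
      · obtain ⟨t, rfl⟩ := h
        rw [h1]
        exact hc t
      · rw [h2 i (fun t ht => h ⟨t, ht⟩)]
        exact hφI i hi
    have hψa : ∀ d ∈ C, (J.filter (fun i => ψ i = d)).card = a d := by
      intro d hd
      rw [← hφa d hd]
      have h3 := sum_change J j hj hjinj φ ψ c h1 h2
        (fun _ k => if k = d then (1 : ℤ) else 0)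
      have h4 : ∑ t, ((if c t = d then (1 : ℤ) else 0) - if φ (j t) = d then 1 else 0) = 0 := by
        rw [Finset.sum_sub_distrib, sub_eq_zero]
        have h5 := Equiv.sum_comp (Equiv.addRight (1 : Fin (m + 1)))
          (fun t => if φ (j t) = d then (1 : ℤ) else 0)
        rw [← h5]
        refine Finset.sum_congr rfl fun t _ => ?_
        rw [Equiv.coe_addRight, hc']
      rw [h4, sub_eq_zero, Finset.sum_boole, Finset.sum_boole] at h3
      exact_mod_cast h3
    have h3 := sum_change J j hj hjinj φ ψ c h1 h2 x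
    have h4 : ∑ t, (p t).2.2 = ∑ i ∈ J, x i (ψ i) - ∑ i ∈ J, x i (φ i) := by
      rw [h3]
      exact Finset.sum_congr rfl fun t _ => e3 t
    rw [h4, sub_pos]
    refine lt_of_le_of_ne (hmin _ ⟨ψ, ⟨hψI, hψa⟩, rfl⟩) fun heq => ?_
    have h5 := hgen φ ψ hφI hψI heq (j 0) (hj 0)
    rw [h1] at h5
    exact hne' 0 h5.symm)
  refine ⟨α, φ, fun j hj => ⟨hφI j hj, fun c hc hne' => ?_⟩, hφa⟩
  have h1 := hα _ ((hE _).mpr ⟨j, hj, c, hc, hne', rfl⟩)
  simp only at h1
  linarith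

end Pool.Agent.Helper28.SO
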